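import Pool.Agent.TH456.TM.Close

/-!
# Translates of one number (for instance Euler's constant) by logarithms of rational numbers

`γ` and all `γ + log r` are simultaneously badly approximable by algebraic numbers of bounded
degree, and near misses are rare.
-/

set_option autoImplicit false

namespace Pool.Agent.Results.MP_e48a95_nt.EulerPlusLogs

open Polynomial

/-- The height of `P ∈ ℤ[X]`: the largest absolute value of a coefficient. -/
noncomputable def height (P : ℤ[X]) : ℕ := P.support.sup fun i => (P.coeff i).natAbs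

/-- The irreducible polynomials `P ∈ ℤ[X]` of degree at most `D`, normalised to have positive
leading coefficient (one of `P`, `-P`). -/
def Irr (D : ℕ) : Set ℤ[X] := {P | Irreducible P ∧ P.natDegree ≤ D ∧ 0 < P.leadingCoeff}

/-- The near relations: the pairs `(r, P)`, `r ∈ R`, `P` in `Irr D` of height at most `Y`, with
`|P(t + log r)| ≤ (height P) ^ (-w)`. -/
def Near (t : ℂ) (R : Finset ℚ) (D : ℕ) (w Y : ℝ) : Set (ℚ × ℤ[X]) :=
  {p | p.1 ∈ R ∧ p.2 ∈ Irr D ∧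
    ‖aeval (t + (Real.log (p.1 : ℝ) : ℂ)) p.2‖ ≤ (height p.2 : ℝ) ^ (-w) ∧ (height p.2 : ℝ) ≤ Y}

/-- **Translates of one number by logarithms of rational numbers.** -/
theorem result (R : Finset ℚ) (hR : ∀ r ∈ R, 0 < r) (D : ℕ) :
    ∃ κ : ℝ, 0 < κ ∧
      (∀ T : ℝ, ∃ c : ℝ, 0 < c ∧ ∀ t : ℂ, ‖t‖ ≤ T → ∀ r ∈ R, ∀ s ∈ R, r ≠ s →
        ∀ P Q : ℤ[X], P ≠ 0 → Q ≠ 0 → P.natDegree ≤ D → Q.natDegree ≤ D →
        ∀ H : ℝ, (height P : ℝ) ≤ H → (height Q : ℝ) ≤ H →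
          c * H ^ (-κ) ≤ max ‖aeval (t + (Real.log (r : ℝ) : ℂ)) P‖
            ‖aeval (t + (Real.log (s : ℝ) : ℂ)) Q‖) ∧
      (∀ (t : ℂ) (w ρ : ℝ), 1 < ρ → ρ < w / κ → ∃ C : ℝ, ∀ Y : ℝ, 3 ≤ Y →
        (Near t R D w Y).Finite ∧
        ((Near t R D w Y).ncard : ℝ) ≤ Real.log (Real.log Y) / Real.log ρ + C) := by
  have hM : ∀ r ∈ R, ∀ s ∈ R, r ≠ s →
      Pool.Agent.TH456.TM.MeasT ((Real.log (s : ℝ) : ℂ) - (Real.log (r : ℝ) : ℂ)) := by
    intro r hr s hs hrs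
    have hr0 := hR r hr
    have hs0 := hR s hs
    have h1 : ((Real.log (s : ℝ) : ℂ) - (Real.log (r : ℝ) : ℂ)) =
        ((Real.log ((s / r : ℚ) : ℝ) : ℝ) : ℂ) := by
      rw [← Complex.ofReal_sub, Rat.cast_div, Real.log_div (by exact_mod_cast hs0.ne')
        (by exact_mod_cast hr0.ne')]
    rw [h1]
    refine Pool.Agent.TH456.TM.measT_real_log (s / r) (by positivity) ?_
    rw [Ne, div_eq_one_iff_eq hr0.ne']
    exact hrs.symm
  obtain ⟨κ, hκ, h⟩ := Pool.Agent.TH456.TM.fam_add R (fun r => (Real.log (r : ℝ) : ℂ)) hM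
    _ Pool.Agent.TH456.TM.measT_pi D
  refine ⟨κ, hκ, fun T => ?_, fun t w ρ hρ hρw => ?_⟩
  · obtain ⟨c, hc, h1⟩ := h T
    exact ⟨c, hc, fun t ht => (h1 t ht).1⟩
  · obtain ⟨c, hc, h1⟩ := h ‖t‖
    obtain ⟨h1, h2⟩ := h1 t le_rfl
    obtain ⟨C, hC⟩ := Pool.Agent.TH456.TM.sparse_fam R (fun r => t + (Real.log (r : ℝ) : ℂ)) D κ hκ
      ⟨c, hc, fun u hu v hv P hP Q hQ hne H hPH hQH => by
        by_cases huv : u = v
        · subst huv
          have hPQ : P ≠ Q := fun h => hne (by rw [h])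
          exact h2 u hu P hP Q hQ hPQ H hPH hQH
        · exact h1 u hu v hv huv P Q hP.1.ne_zero hQ.1.ne_zero hP.2.1 hQ.2.1 H hPH hQH⟩ w ρ hρ hρw
    refine ⟨C, fun Y hY => ?_⟩
    have hset : Near t R D w Y =
        {p ∈ Pool.Agent.TH456.TM.NearF R (fun r => t + (Real.log (r : ℝ) : ℂ)) D w |
          (Pool.Agent.TH456.TM.ht p.2 : ℝ) ≤ Y} := by
      ext p
      constructor
      · rintro ⟨a, b, c, d⟩
        exact ⟨⟨a, b, c⟩, d⟩
      · rintro ⟨⟨a, b, c⟩, d⟩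
        exact ⟨a, b, c, d⟩
    rw [hset]
    exact hC Y hY

end Pool.Agent.Results.MP_e48a95_nt.EulerPlusLogs
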