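import Pool.Agent.TH550.NRZ.Elim
import Pool.Agent.TH817.Z3.Z
import Pool.Agent.TH250.Z3.Arch

/-!
# Linearly independent near relations between `1`, `ζ(3)` and arbitrary real numbers
-/

set_option autoImplicit false

namespace Pool.Agent.Results.MP_e48a95_nt.NearRelations

open Real

/-- The height `max (|a|, |b|, |c|)` of the integer vector `v = (a, b, c)`. -/
noncomputable def height (v : ℤ × ℤ × ℤ) : ℝ :=
  max |(v.1 : ℝ)| (max |(v.2.1 : ℝ)| |(v.2.2 : ℝ)|)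

/-- The primitive integer vectors `v = (a, b, c)`, `c > 0`, of height at most `X` with
`|a + b ζ(3) + c t| ≤ (height v) ^ (-w)`. -/
def Near (t w X : ℝ) : Set (ℤ × ℤ × ℤ) :=
  {v | 0 < v.2.2 ∧ Int.gcd v.1 (Int.gcd v.2.1 v.2.2) = 1 ∧ height v ≤ X ∧
    |(v.1 : ℝ) + v.2.1 * (∑' n : ℕ, 1 / ((n : ℝ) + 1) ^ 3) + v.2.2 * t| ≤ height v ^ (-w)}

open Pool.Agent.TH647.NR Pool.Agent.W472.AC

/-- passage to the notation of the library -/
def φ (v : ℤ × ℤ × ℤ) : (Fin 2 → ℤ) × ℤ := (![v.1, v.2.1], v.2.2)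

lemma φ_inj : Function.Injective φ := by
  rintro ⟨a, b, c⟩ ⟨a', b', c'⟩ h
  have h1 := congrArg Prod.fst h
  have h2 := congrArg Prod.snd h
  have h3 := congrFun h1 0
  have h4 := congrFun h1 1
  simp only [φ, Matrix.cons_val_zero, Matrix.cons_val_one] at h2 h3 h4
  rw [h2, h3, h4]

lemma norm_φ (v : ℤ × ℤ × ℤ) : ‖φ v‖ = height v := by
  have h1 : ‖(![v.1, v.2.1] : Fin 2 → ℤ)‖ = max |(v.1 : ℝ)| |(v.2.1 : ℝ)| := by
    apply le_antisymm
    · refine (pi_norm_le_iff_of_nonneg (by positivity)).2 fun i => ?_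
      fin_cases i
      · exact le_max_left _ _
      · exact le_max_right _ _
    · refine max_le ?_ ?_
      · exact norm_le_pi_norm (![v.1, v.2.1] : Fin 2 → ℤ) 0
      · exact norm_le_pi_norm (![v.1, v.2.1] : Fin 2 → ℤ) 1
  unfold φ height
  rw [Prod.norm_def, h1, max_assoc]
  rfl

lemma prim_φ (v : ℤ × ℤ × ℤ) (h : Int.gcd v.1 (Int.gcd v.2.1 v.2.2) = 1) : Prim (φ v) := by
  intro d hd hd2
  have h0 : d ∣ v.1 := hd 0
  have h1 : d ∣ v.2.1 := hd 1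
  have h2 : d ∣ ((Int.gcd v.2.1 v.2.2 : ℕ) : ℤ) := Int.dvd_coe_gcd h1 hd2
  have h3 := Int.dvd_coe_gcd h0 h2
  rw [h] at h3
  exact isUnit_of_dvd_one (by simpa using h3)

/-- the measure of linear independence of `1, ζ(3)` in the notation of the library -/
lemma meas_zeta : ∃ c : ℝ, 0 < c ∧ Meas ![1, ∑' n : ℕ, 1 / ((n : ℝ) + 1) ^ 3] 3.68 c :=
  Pool.Agent.TH550.NRZ.meas_of_exponent
    (∑' n : ℕ, 1 / ((n : ℝ) + 1) ^ 3) 3.68 (by norm_num) (by
      obtain ⟨c, hc, h⟩ := Pool.Agent.TH817.Z3.Z_pre Pool.Agent.TH250.Z3.AM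
      refine ⟨c, hc, fun p q hq => ?_⟩
      have h2 := h p q hq
      have e : (3.68 : ℝ) + 1 = 468 / 100 := by norm_num
      rw [e]
      exact h2)

/-- the product inequality -/
lemma product (r : ℕ) : ∃ c : ℝ, 0 < c ∧ ∀ (t : Fin r → ℝ) (a b : Fin (r + 1) → ℤ)
      (e : Fin (r + 1) → Fin r → ℤ) (h : Fin (r + 1) → ℝ),
      LinearIndependent ℤ (fun i => (a i, b i, e i)) →
      (∀ i, 1 ≤ h i ∧ |(a i : ℝ)| ≤ h i ∧ |(b i : ℝ)| ≤ h i ∧ ∀ j, |(e i j : ℝ)| ≤ h i) →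
      c * ∏ i, h i ^ (-(4.68 : ℝ)) ≤
        ∑ i, |(a i : ℝ) + b i * (∑' n : ℕ, 1 / ((n : ℝ) + 1) ^ 3) + ∑ j, e i j * t j| / h i := by
  obtain ⟨c, hc, hm⟩ := meas_zeta
  obtain ⟨c', hc', h'⟩ := Pool.Agent.TH550.NRZ.product_ineq (m := 1)
    ![1, ∑' n : ℕ, 1 / ((n : ℝ) + 1) ^ 3] 3.68 c (by norm_num) hc hm r
  refine ⟨c', hc', fun t a b e h hli hh => ?_⟩
  have h2 := h' t (fun i => ![a i, b i]) e ?_ h (fun i => (hh i).1) ?_ (fun i => (hh i).2.2.2)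
  · have e1 : -((3.68 : ℝ) + 1) = -(4.68 : ℝ) := by norm_num
    rw [e1] at h2
    refine h2.trans (le_of_eq ?_)
    refine Finset.sum_congr rfl fun i _ => ?_
    rw [Fin.sum_univ_two]
    simp
  · rw [Fintype.linearIndependent_iff] at hli ⊢
    intro g hg
    refine hli g ?_
    rw [Prod.ext_iff] at hg
    obtain ⟨hg1, hg2⟩ := hg
    rw [Prod.fst_sum] at hg1
    rw [Prod.snd_sum] at hg2
    have h3 := congrFun hg1 0
    have h4 := congrFun hg1 1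
    rw [Finset.sum_apply] at h3 h4
    rw [Prod.ext_iff, Prod.ext_iff, Prod.fst_sum, Prod.snd_sum, Prod.fst_sum, Prod.snd_sum]
    refine ⟨?_, ?_, ?_⟩
    · simpa using h3
    · simpa using h4
    · simpa using hg2
  · intro i j
    fin_cases j
    · exact (hh i).2.1
    · exact (hh i).2.2.1

/-- **Linearly independent near relations between `1`, `ζ(3)` and arbitrary real numbers**
`t_1, …, t_r`: a product inequality with explicit exponent, and its consequence for `r = 1`: at most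
`log log X / log ρ + C` near relations up to height `X`. The constants do not depend on the `t_j`. -/
theorem result :
    (∀ r : ℕ, ∃ c : ℝ, 0 < c ∧ ∀ (t : Fin r → ℝ) (a b : Fin (r + 1) → ℤ)
      (e : Fin (r + 1) → Fin r → ℤ) (h : Fin (r + 1) → ℝ),
      LinearIndependent ℤ (fun i => (a i, b i, e i)) →
      (∀ i, 1 ≤ h i ∧ |(a i : ℝ)| ≤ h i ∧ |(b i : ℝ)| ≤ h i ∧ ∀ j, |(e i j : ℝ)| ≤ h i) →
      c * ∏ i, h i ^ (-(4.68 : ℝ)) ≤
        ∑ i, |(a i : ℝ) + b i * (∑' n : ℕ, 1 / ((n : ℝ) + 1) ^ 3) + ∑ j, e i j * t j| / h i) ∧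
    (∀ w ρ : ℝ, 8.36 < w → 1 < ρ → ρ < (w - 3.68) / 4.68 →
      ∃ C : ℝ, ∀ t X : ℝ, 3 ≤ X →
        (Near t w X).Finite ∧ ((Near t w X).ncard : ℝ) ≤ log (log X) / log ρ + C) := by
  refine ⟨product, fun w ρ hw hρ hρw => ?_⟩
  have hfin : ∀ t w X : ℝ, (Near t w X).Finite := by
    intro t w X
    refine ((finite_ball (m := 1) X).preimage (φ_inj.injOn)).subset fun v hv => ?_
    show ‖φ v‖ ≤ X
    rw [norm_φ]
    exact hv.2.2.1
  obtain ⟨c, hc, hm⟩ := meas_zeta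
  obtain ⟨C, hC⟩ := Pool.Agent.TH550.NRZ.sparse_unif (m := 1)
    ![1, ∑' n : ℕ, 1 / ((n : ℝ) + 1) ^ 3] 3.68 c (by norm_num) hc hm w ρ (by linarith) hρ (by
      have e : (3.68 : ℝ) + 1 = 4.68 := by norm_num
      rw [e]
      exact hρw)
  refine ⟨C, fun t X hX => ⟨hfin t w X, ?_⟩⟩
  obtain ⟨h1, h2⟩ := hC t X hX
  refine le_trans ?_ h2
  have h3 := Set.ncard_le_ncard_of_injOn (s := Near t w X) φ (fun v hv => ?_)
    (φ_inj.injOn) h1
  · exact_mod_cast h3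
  · refine ⟨⟨hv.1, prim_φ v hv.2.1, ?_⟩, ?_⟩
    · rw [norm_φ]
      have e1 : lin ![1, ∑' n : ℕ, 1 / ((n : ℝ) + 1) ^ 3] t (φ v) =
          (v.1 : ℝ) + v.2.1 * (∑' n : ℕ, 1 / ((n : ℝ) + 1) ^ 3) + v.2.2 * t := by
        unfold lin φ
        rw [Fin.sum_univ_two]
        simp
      rw [e1]
      exact hv.2.2.2
    · show ‖φ v‖ ≤ X
      rw [norm_φ]
      exact hv.2.2.1

end Pool.Agent.Results.MP_e48a95_nt.NearRelations
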