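import Pool.Agent.TH120.ZE.Cor2

/-!
# Linear independence measure of `1, ζ(3), π ^ 4` with exponent `138`

Improves the exponent `2400` of `MeasureZetaThreePiFour` (same determinants): the archimedean bound is proved for
every `n` (not only `n = 1 (mod 24)`), the pole functional is bounded by Lagrange interpolation at the symmetric
nodes `j / 2` on the line (constant `55.65` instead of `200`), and the prime `n` is taken in
`(1.4775 M, 2.478 M]` by the prime number theorem.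
-/

set_option autoImplicit false

namespace Pool.Agent.Results.MP_e48a95_nt.ZetaThreePiFourExponent

/-- (1) For all integers `(a, b, d) ≠ 0`, with `H = max(|a|, |b|, |d|)`, one has
`|a + b ζ(3) + d π ^ 4| ≥ c H ^ (-138)`;
(2) for `d ≠ 0` the same with `H = max(|b|, |d|)`;
(3) irrationality exponent at most `139` for `ζ(3) + s π ^ 4`, `s ≠ 0` rational, and
(4) for `ζ(3) / π ^ 4`. -/
theorem result :
    (∃ c : ℝ, 0 < c ∧ ∀ a b d : ℤ, ¬ (a = 0 ∧ b = 0 ∧ d = 0) →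
      c / (max (max |(a : ℝ)| |(b : ℝ)|) |(d : ℝ)|) ^ 138 ≤
        |(a : ℝ) + b * (∑' n : ℕ, 1 / ((n : ℝ) + 1) ^ 3) + d * Real.pi ^ 4|) ∧
    (∃ c : ℝ, 0 < c ∧ ∀ a b d : ℤ, d ≠ 0 →
      c / (max |(b : ℝ)| |(d : ℝ)|) ^ 138 ≤
        |(a : ℝ) + b * (∑' n : ℕ, 1 / ((n : ℝ) + 1) ^ 3) + d * Real.pi ^ 4|) ∧
    (∀ s : ℚ, s ≠ 0 → ∃ c : ℝ, 0 < c ∧ ∀ p q : ℤ, 0 < q →
      c / (q : ℝ) ^ 139 ≤ |(∑' n : ℕ, 1 / ((n : ℝ) + 1) ^ 3) + s * Real.pi ^ 4 - p / q|) ∧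
    (∃ c : ℝ, 0 < c ∧ ∀ p q : ℤ, 0 < q →
      c / (q : ℝ) ^ 139 ≤ |(∑' n : ℕ, 1 / ((n : ℝ) + 1) ^ 3) / Real.pi ^ 4 - p / q|) := by
  refine ⟨?_, ?_, fun s hs => Pool.Agent.TH120.ZE.shift_exp2 s hs, Pool.Agent.TH120.ZE.quot_exp2⟩
  · obtain ⟨c, hc, h⟩ := Pool.Agent.TH120.ZE.pi_all2
    refine ⟨c, hc, fun a b d h0 => h a b d h0 _ ?_ ((le_max_right _ _).trans (le_max_left _ _)) (le_max_right _ _)⟩
    have key : ∀ m : ℤ, m ≠ 0 → (1 : ℝ) ≤ |(m : ℝ)| := fun m hm => by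
      have : (1 : ℤ) ≤ |m| := Int.one_le_abs hm
      exact_mod_cast this
    by_cases ha : a = 0
    · by_cases hb : b = 0
      · exact (key d (fun hd => h0 ⟨ha, hb, hd⟩)).trans (le_max_right _ _)
      · exact (key b hb).trans ((le_max_right _ _).trans (le_max_left _ _))
    · exact (key a ha).trans ((le_max_left _ _).trans (le_max_left _ _))
  · obtain ⟨c, hc, h⟩ := Pool.Agent.TH120.ZE.pi_d2
    exact ⟨c, hc, fun a b d hd => h a b d hd _ (le_max_left _ _) (le_max_right _ _)⟩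

end Pool.Agent.Results.MP_e48a95_nt.ZetaThreePiFourExponent
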