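import Pool.Agent.TH456.TM.AlgDep

/-!
# Multiples of one number (for instance `ζ(3)`) by algebraic functions of `π`

`ζ(3)`, `ζ(3)/π³` and all `ζ(3) π^j` are simultaneously badly approximable by algebraic numbers of
bounded degree, and near misses are rare.
-/

set_option autoImplicit false

namespace Pool.Agent.Results.MP_e48a95_nt.ZetaThreeTimesPi

open Polynomial

/-- The height of `P ∈ ℤ[X]`: the largest absolute value of a coefficient. -/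
noncomputable def height (P : ℤ[X]) : ℕ := P.support.sup fun i => (P.coeff i).natAbs

/-- The irreducible polynomials `P ∈ ℤ[X]` of degree at most `D`, normalised to have positive
leading coefficient (one of `P`, `-P`). -/
def Irr (D : ℕ) : Set ℤ[X] := {P | Irreducible P ∧ P.natDegree ≤ D ∧ 0 < P.leadingCoeff}

/-- The near relations: the pairs `(u, P)`, `u ∈ U`, `P` in `Irr D` of height at most `Y`, with
`|P(t u)| ≤ (height P) ^ (-w)`. -/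
def Near (t : ℂ) (U : Finset ℂ) (D : ℕ) (w Y : ℝ) : Set (ℂ × ℤ[X]) :=
  {p | p.1 ∈ U ∧ p.2 ∈ Irr D ∧ ‖aeval (t * p.1) p.2‖ ≤ (height p.2 : ℝ) ^ (-w) ∧
    (height p.2 : ℝ) ≤ Y}

/-- **Multiples of one number by algebraic functions of `π`.** -/
theorem result (U : Finset ℂ) (hU : ∀ u ∈ U, u ≠ 0 ∧
      IsAlgebraic (Algebra.adjoin ℤ ({(Real.pi : ℂ)} : Set ℂ)) u)
    (hUU : ∀ u ∈ U, ∀ v ∈ U, u ≠ v → Transcendental ℚ (u / v)) (D : ℕ) :
    ∃ κ : ℝ, 0 < κ ∧ ∀ t : ℂ, t ≠ 0 →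
      (∃ c : ℝ, 0 < c ∧ ∀ u ∈ U, ∀ v ∈ U, u ≠ v → ∀ P Q : ℤ[X], P ≠ 0 → Q ≠ 0 →
        P.natDegree ≤ D → Q.natDegree ≤ D → ∀ H : ℝ, (height P : ℝ) ≤ H → (height Q : ℝ) ≤ H →
          c * H ^ (-κ) ≤ max ‖aeval (t * u) P‖ ‖aeval (t * v) Q‖) ∧
      (∀ w ρ : ℝ, 1 < ρ → ρ < w / κ → ∃ C : ℝ, ∀ Y : ℝ, 3 ≤ Y → (Near t U D w Y).Finite ∧
        ((Near t U D w Y).ncard : ℝ) ≤ Real.log (Real.log Y) / Real.log ρ + C) := by
  have hM : ∀ u ∈ U, ∀ v ∈ U, u ≠ v → Pool.Agent.TH456.TM.MeasT (v / u) := by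
    intro u hu v hv huv
    refine Pool.Agent.TH456.TM.measT_of_isAlgebraic Pool.Agent.TH456.TM.measT_pi _ ?_ ?_
    · rw [div_eq_mul_inv]
      exact (hU v hv).2.mul (hU u hu).2.inv
    · intro h
      exact hUU v hv u hu huv.symm ((IsFractionRing.isAlgebraic_iff ℤ ℚ ℂ).1 h)
  obtain ⟨κ, hκ, h⟩ := Pool.Agent.TH456.TM.fam_mul U (fun u => u) (fun u hu => (hU u hu).1) hM
    _ Pool.Agent.TH456.TM.measT_pi D
  refine ⟨κ, hκ, fun t ht => ?_⟩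
  obtain ⟨c, hc, h1, h2⟩ := h t ht
  refine ⟨⟨c, hc, h1⟩, fun w ρ hρ hρw => ?_⟩
  obtain ⟨C, hC⟩ := Pool.Agent.TH456.TM.sparse_fam U (fun u => t * u) D κ hκ
    ⟨c, hc, fun u hu v hv P hP Q hQ hne H hPH hQH => by
      by_cases huv : u = v
      · subst huv
        have hPQ : P ≠ Q := fun h => hne (by rw [h])
        exact h2 u hu P hP Q hQ hPQ H hPH hQH
      · exact h1 u hu v hv huv P Q hP.1.ne_zero hQ.1.ne_zero hP.2.1 hQ.2.1 H hPH hQH⟩ w ρ hρ hρw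
  refine ⟨C, fun Y hY => ?_⟩
  have hset : Near t U D w Y = {p ∈ Pool.Agent.TH456.TM.NearF U (fun u => t * u) D w |
      (Pool.Agent.TH456.TM.ht p.2 : ℝ) ≤ Y} := by
    ext p
    constructor
    · rintro ⟨a, b, c, d⟩
      exact ⟨⟨a, b, c⟩, d⟩
    · rintro ⟨⟨a, b, c⟩, d⟩
      exact ⟨a, b, c, d⟩
  rw [hset]
  exact hC Y hY

end Pool.Agent.Results.MP_e48a95_nt.ZetaThreeTimesPi
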